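import Pool.Agent.Helper78.PM.Goals
import Pool.Agent.Helper9.AO.MAP

/-!
# PM-PMA: approximation for the parallel machines with small memories
-/

namespace Pool.Agent.Helper62.PM

open Pool.Agent.Helper81.CC Pool.Agent.Helper51.ZP Pool.Agent.Helper78.DT Pool.Agent.Helper78.AO
  Pool.Agent.Helper78.JT Pool.Agent.Helper78.PM
open scoped Classical

theorem listsJ_mono {n w w' r : ℕ} {R : ℕ → ℕ → (ℕ → ℕ) → (ℕ → Bool) → Bool} (h : w ≤ w')
    (hR : ListsJ n w r R) : ListsJ n w' r R := by
  obtain ⟨f, H, hf, h1⟩ := hR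
  exact ⟨f, H, fun j e he => (hf j e he).trans h, h1⟩

/-- **PMA.** Approximation for the parallel machines. -/
theorem pma (hPmr : PmrStmt) (hPml : PmlStmt) (hPmt : Pool.Agent.Helper78.PM.PmtStmt) :
    PmaStmt := by
  intro c e k A hFew
  have hm : PolyTime A.m := Pool.Agent.Helper61.DT.PT_of_comp' A.m_poly
  have hlen : PolyTime (fun x : List Bool => x.length) := by fun_prop
  have hs : PolyTime (fun x : List Bool => x.length + A.m x) := PolyTime.add hlen hm
  have hlog : ∀ x : List Bool, Nat.log 2 x.length ≤ Nat.log 2 (x.length + A.m x) := fun x =>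
    Nat.log_mono_right (Nat.le_add_right _ _)
  obtain ⟨f, hf, h⟩ := gejS (List Bool) (fun x K t h b => FK A c x K t h b) A.m
    (fun x => x.length + A.m x) (2 * c) e (hPmt A c) hm hs (fun x => Nat.le_add_left _ _) (k + 2)
  have hl : PolyTime (fun x : List Bool => Nat.log 2 x.length + 2) :=
    PolyTime.add (Pool.Agent.Helper61.DT.PT_log hlen) (PolyTime.const 2)
  have hg : PolyTime (fun x : List Bool => lg (x.length + A.m x)) :=
    PolyTime.add (Pool.Agent.Helper61.DT.PT_log hs) (PolyTime.const 2)
  refine ⟨fun x => Pool.Agent.Helper9.AO.rd k (Nat.log 2 x.length + 2) (lg (x.length + A.m x))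
    (f x), PolyTime.computable ?_, fun x => ?_⟩
  · unfold Pool.Agent.Helper9.AO.rd
    exact PolyTime.div (PolyTime.add (PolyTime.mul (PolyTime.mul (PolyTime.const 2)
      (PolyTime.pow hl k)) hf) (PolyTime.pow hg (k + 2)))
      (PolyTime.mul (PolyTime.const 2) (PolyTime.pow hg (k + 2)))
  · have h1 := h x (A.r x) (by
      refine listsJ_mono ?_ (hPml A c x)
      unfold Pool.Agent.Helper78.AO.bd lg
      have h1 := hlog x
      calc 2 * (c * Nat.log 2 x.length + c) = 2 * c * (Nat.log 2 x.length + 1) := by ring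
        _ ≤ 2 * c * (Nat.log 2 (x.length + A.m x) + 2) := Nat.mul_le_mul_left _ (by omega))
      ((hFew x).trans (Nat.pow_le_pow_left (by
        unfold lg
        have h1 := hlog x
        show Nat.log 2 x.length + 2 ≤ Nat.log 2 (x.length + A.m x) + 2
        omega) e))
    have h2 : pr (fun b : Fin (A.m x) → Bool =>
        FK A c x 0 0 (fun _ => 0) (cf b) = true) =
        (Pool.Agent.Helper78.PM.acc A c x : ℝ) / 2 ^ A.m x := by
      rw [pr_eq_card, Fintype.card_fun, Fintype.card_bool, Fintype.card_fin]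
      push_cast
      unfold Pool.Agent.Helper78.PM.acc
      have h3 : ∀ r : Fin (A.m x) → Bool,
          FK A c x 0 0 (fun _ => 0) (cf r) = true ↔
            A.out (x, Pool.Agent.Helper78.PM.results A c x
              (Pool.Agent.Helper78.PM.coins r)) = true := by
        intro r
        rw [hPmr]
        exact Iff.rfl
      rw [Nat.card_congr (Equiv.subtypeEquivRight h3)]
    have h4 : |(f x : ℝ) / (lg (x.length + A.m x) : ℝ) ^ (k + 2) -
        (Pool.Agent.Helper78.PM.acc A c x : ℝ) / 2 ^ A.m x| ≤
        1 / (lg (x.length + A.m x) : ℝ) ^ (k + 2) := by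
      rw [← h2]
      exact h1
    refine Pool.Agent.Helper9.AO.rd_spec (by omega) ?_ h4
    unfold lg
    have h3 := hlog x
    omega

end Pool.Agent.Helper62.PM
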